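import Pool.Agent.MP_54e5d7_al.atl.All
import Pool.Agent.MP_54e5d7_al.atl.JENA
import Pool.Agent.MP_54e5d7_al.atl.JEN

/-!
The strong Atiyah conjecture over the complex numbers for automorphism groups of relatively free,
residually torsion-free nilpotent groups, and for their quotients by finite normal subgroups.
-/

set_option autoImplicit false

open Pool.Agent.MP_54e5d7_al Pool.Agent.MP_54e5d7_al.atl in
theorem Pool.Agent.Results.MP_54e5d7_al.AutFree.result (n : ℕ)
    (V : Subgroup (FreeGroup (Fin n))) [V.Characteristic]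
    (hV : V ≤ commutator (FreeGroup (Fin n)))
    (hres : ∀ γ : FreeGroup (Fin n) ⧸ V, γ ≠ 1 →
      ∃ (N : Type) (_ : Group N) (φ : FreeGroup (Fin n) ⧸ V →* N),
        Group.IsNilpotent N ∧ (∀ x : N, IsOfFinOrder x → x = 1) ∧ φ γ ≠ 1)
    (G : Type) [Group G] (f : MulAut (FreeGroup (Fin n) ⧸ V) →* G) (hf : Function.Surjective f)
    (hk : Finite f.ker) (d : ℕ) (hd : ∀ H : Subgroup G, Finite H → Nat.card H ∣ d) :
    Atiyah G d :=
  aut_final crit_all wr iw0 mag_all (jen (jenA iw0)) quot_stmt n V hV hres G f hf hk d hd
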