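import Mathlib
import Pool.Agent.MP_54e5d7_al.atc.Strong
import Pool.Agent.MP_54e5d7_al.atc.ker.Ker
import Pool.Agent.MP_54e5d7_al.atc.fin.Typ
import Pool.Agent.MP_54e5d7_al.atc.fin.GlueA
import Pool.Agent.MP_54e5d7_al.atc.tr.Core
import Pool.Agent.MP_54e5d7_al.atc.dim2.Dim

/-!
The Atiyah conjecture over the complex numbers fails for a group with bounded torsion.
-/

set_option autoImplicit false

namespace Pool.Agent.Results.MP_54e5d7_al.Counterexample

open Pool.Agent.MP_54e5d7_al

/-- For every `M ≥ 1` there is a countable group whose torsion lies in a finite central subgroup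
`Z` and for which the integrality property with denominator `M * |Z|` fails. -/
theorem result (M : ℕ) (hM : 1 ≤ M) :
    ∃ (G : Type) (_ : Group G) (Z : Subgroup G), Countable G ∧ Finite Z ∧
      Z ≤ Subgroup.center G ∧ (∀ g : G, IsOfFinOrder g → g ∈ Z) ∧
      ¬ Atiyah G (M * Nat.card Z) :=
  Atc.strong Atc.cov Atc.arith Atc.split Atc.sc_stmt Atc.typ Atc.covol Atc.ker Atc.dim2 M hM

end Pool.Agent.Results.MP_54e5d7_al.Counterexample
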