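import Pool.Agent.MP_54e5d7_al.Union

/-!
The Atiyah conjecture over the complex numbers for the class generated from finite groups by
actions on trees (arbitrary edge groups), virtually abelian quotients and directed unions, and for
extensions with such a quotient.
-/

set_option autoImplicit false

namespace Pool.Agent.Results.MP_54e5d7_al.Hierarchy

open Pool.Agent.MP_54e5d7_al

/-- Let `Q` lie in the class `Hier` and let `π : G → Q` be a homomorphism such that the
preimage of every finite subgroup of `Q` is finite of order dividing `d` or satisfies the
integrality property with denominator `d`. Then `G` satisfies it. For `π` the identity this is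
the Atiyah conjecture for the groups of the class with bounded torsion. -/
theorem result (G Q : Type) [Group G] [Group Q] (π : G →* Q) (hQ : Hier Q) (d : ℕ)
    (h : ∀ E : Subgroup Q, Finite E →
      (Finite (E.comap π) ∧ Nat.card (E.comap π) ∣ d) ∨ Atiyah (E.comap π) d) :
    Atiyah G d := by
  rcases Nat.eq_zero_or_pos d with rfl | hd
  · exact atiyah_zero G
  refine (atiyah_iff G d).2 ((hQ.rr hd).ac0_of_comap π fun E hE => ?_).at0
  rcases h E hE with ⟨_, h1⟩ | h1
  · exact ac0_of_finite h1
  · exact ((atiyah_iff _ d).1 h1).ac0

end Pool.Agent.Results.MP_54e5d7_al.Hierarchy
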