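import Pool.Agent.MP_54e5d7_al.atl.All
import Pool.Agent.MP_54e5d7_al.atl.GROSS

/-!
The strong Atiyah conjecture over the complex numbers for the outer automorphism group of a
free group of finite rank.
-/

set_option autoImplicit false

open Pool.Agent.MP_54e5d7_al Pool.Agent.MP_54e5d7_al.atl in
theorem Pool.Agent.Results.MP_54e5d7_al.OutFree.result (n d : ℕ)
    (hd : ∀ H : Subgroup (Out (FreeGroup (Fin n))), Finite H → Nat.card H ∣ d) :
    Atiyah (Out (FreeGroup (Fin n))) d :=
  out_final crit_all wr iw0 mag_all (neck sep) gross n d hd
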